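import Pool.Agent.H75C.HY.TRG

/-!
# The game for transitive frames: a won game gives a certificate (statement D3)
-/

set_option autoImplicit false
set_option synthInstance.maxSize 4000

namespace Pool.Agent.H75C.HY.TR

open Pool.Agent.NPC Pool.Agent.H75C.HY

namespace D3P

/-! ### Splitting and decoding -/

lemma ustep_len (s : List Bool × List Bool × Bool) :
    (ustep s).1.length + (ustep s).2.1.length ≤ s.1.length + s.2.1.length := by
  obtain ⟨a, l, b⟩ := s
  unfold ustep
  cases b with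
  | true => simp
  | false =>
    match l with
    | [] => simp
    | true :: [] => simp
    | true :: c :: l' => simp; omega
    | false :: l' => simp

lemma unpair_len (y : List Bool) : (unpair y).1.length ≤ y.length := by
  have h : ∀ (k : ℕ) (s : List Bool × List Bool × Bool),
      (ustep^[k] s).1.length + (ustep^[k] s).2.1.length ≤ s.1.length + s.2.1.length := by
    intro k
    induction k with
    | zero => intro s; simp
    | succ k ih =>
      intro s
      rw [Function.iterate_succ_apply]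
      exact (ih _).trans (ustep_len s)
  have h1 := h y.length ([], y, false)
  unfold unpair
  simp only [List.length_reverse]
  simp only [List.length_nil, zero_add] at h1
  omega

lemma dec_len {α : Type} [TEnc α] [TDec α] {M : List Bool} {a : α}
    (h : unbits α (unpair M).1 = some a) : sz a ≤ M.length := by
  have h1 := bits_of_unbits h
  have h2 : (bits a).length ≤ M.length := by rw [h1]; exact unpair_len M
  rwa [bits_length] at h2

lemma chl_pb (x : ℕ × ℕ × ℕ × ℕ × ℕ × Bool) (p : List Bool) : chl (pairBits (bits x) p) = x := by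
  unfold chl
  rw [unpair_pairBits, unbits_bits]
  rfl

lemma len_pb (x w : List Bool) : (pairBits x w).length = 2 * x.length + 1 + w.length := by
  unfold pairBits
  simp only [List.length_append, List.length_flatMap, List.length_cons, List.length_nil]
  simp
  omega

/-- Every attack is possible. -/
lemma ex_chl {W : ℕ} (x : ℕ × ℕ × ℕ × ℕ × ℕ × Bool) (h : 2 * sz x + 1 ≤ W) :
    ∃ M' : List Bool, M'.length = W ∧ chl M' = x := by
  refine ⟨pairBits (bits x) (List.replicate (W - (2 * sz x + 1)) false), ?_, chl_pb _ _⟩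
  rw [len_pb, bits_length, List.length_replicate]
  omega

lemma lk_lt_mem : ∀ (l : List (ℕ × ℕ)) (d x : ℕ), lk l d x < d → ∃ p ∈ l, p.1 = x := by
  intro l d x
  induction l with
  | nil => intro h; simp [lk] at h
  | cons p l ih =>
    intro h
    by_cases hx : x = p.1
    · exact ⟨p, by simp, hx.symm⟩
    · simp only [lk, if_neg hx] at h
      obtain ⟨q, hq, hqx⟩ := ih h
      exact ⟨q, by simp [hq], hqx⟩

lemma subb_iff {α : Type} [DecidableEq α] {l l' : List α} :
    subb l l' = true ↔ ∀ a ∈ l, a ∈ l' := by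
  unfold subb
  simp

lemma clokb_iff {c : Cl} : clokb c = true ↔ Clok c := by
  unfold clokb Clok
  simp

lemma vl_mem {w : List Tok} {L : ℕ} {l : List (ℕ × ℕ)} (h : vl w L l = true) :
    ∀ p ∈ l, p.1 ∈ w.map Prod.snd := by
  intro p hp
  unfold vl at h
  simp only [Bool.and_eq_true, List.all_eq_true] at h
  have h1 := (h.2 p hp).1
  simpa using h1

lemma vsp_N {w : List Tok} {L : ℕ} {s : Sp} (h : vsp w L s = true) : N s.1 ≤ L := by
  unfold vsp vcl at h
  simp only [Bool.and_eq_true, decide_eq_true_eq] at h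
  exact h.1.1.1.1.1

lemma vsp_n {w : List Tok} {L : ℕ} {s : Sp} (h : vsp w L s = true) :
    vl w L s.1.2.1.2.2 = true := by
  unfold vsp vcl at h
  simp only [Bool.and_eq_true, decide_eq_true_eq] at h
  exact h.1.1.1.2

lemma vsp_f {w : List Tok} {L : ℕ} {s : Sp} (h : vsp w L s = true) :
    vl w L s.1.2.2 = true := by
  unfold vsp vcl at h
  simp only [Bool.and_eq_true, decide_eq_true_eq] at h
  exact h.1.1.2

lemma vsp_z {w : List Tok} {L : ℕ} {s : Sp} (h : vsp w L s = true) :
    ∀ z ∈ s.2.1, z < L := by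
  unfold vsp vz at h
  simp only [Bool.and_eq_true, decide_eq_true_eq, List.all_eq_true] at h
  exact h.1.2.2

lemma vsp_m {w : List Tok} {L : ℕ} {s : Sp} (h : vsp w L s = true) : s.2.2.length ≤ L := by
  unfold vsp vf at h
  simp only [Bool.and_eq_true, decide_eq_true_eq, List.all_eq_true] at h
  exact h.2.1

/-- What is known about the evaluation. -/
structure Ctx (𝔅 : Base) (E : ℕ → List Bool → Bool) (K : ℕ → ℕ) (argX : List Tok → ℕ → List Tok)
    (wf : List Tok → Bool) (w : List Tok) (W : ℕ) : Prop where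
  fs : FS 𝔅 E K argX wf
  fn : ∀ n : ℕ, ¬ GV (tstep E K argX wf w) tout W n (fin false)
  fr : ∀ (r : Bool) (n : ℕ), GV (tstep E K argX wf w) tout W n (fin r) → r = true
  ev : ∀ (c : Cl) (mc : Fls), N c ≤ W → ∀ ψ : Form 𝔅, NoAt ψ → ∀ (B : List ℕ) (v : ℕ) (b : Bool)
      (n : ℕ), v < N c → GV (tstep E K argX wf w) tout W n (evS c mc (pr ψ, B) v b) →
      kv c mc ψ B v = b
  nd : ∀ (J : List Key) (ψ : Form 𝔅), NoAt ψ → ∀ (B : List ℕ) (n : ℕ),
      GV (tstep E K argX wf w) tout W n (ndS J (pr ψ, B)) → Need J ψ B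
  enc : ∀ j i k u : ℕ, j < W → i < W → (k < W ∨ k ∈ w.map Prod.snd) → u < W →
      ∀ (t : ℕ) (b : Bool), t < 8 → 2 * sz ((t, j, i, k, u, b) : ℕ × ℕ × ℕ × ℕ × ℕ × Bool) + 1 ≤ W

section

variable {𝔅 : Base} {E : ℕ → List Bool → Bool} {K : ℕ → ℕ} {argX : List Tok → ℕ → List Tok}
  {wf : List Tok → Bool} {w : List Tok} {W : ℕ}

lemma wf_pr (hc : Ctx 𝔅 E K argX wf w W) {ψ : Form 𝔅} (hψ : NoAt ψ) : wf (pr ψ) = true :=
  (hc.fs.wf _).2 ⟨ψ, hψ, rfl⟩

lemma att_loc (hc : Ctx 𝔅 E K argX wf w W) {n : ℕ} {J : List Key} {c : Cl} {mc m : Fls}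
    (hN : N c ≤ W) (hJ : J.length ≤ W)
    (h : ∀ (k u : ℕ) (b : Bool), k < W → u < W →
      GV (tstep E K argX wf w) tout W n (att wf w J c mc m k u b)) : Loc 𝔅 J c mc m := by
  intro ψ B b hψ hJm hnm u hu hk
  obtain ⟨k, hk1, hk2⟩ := List.mem_iff_getElem.1 hJm
  have hg : J.getD k ([], []) = (pr ψ, B) := by
    rw [List.getD_eq_getElem _ _ hk1, hk2]
  have h1 := h k u b (hk1.trans_le hJ) (hu.trans_le hN)
  unfold att at h1
  rw [hg, if_pos ⟨hk1, hu, wf_pr hc hψ, hnm⟩] at h1
  by_cases hv : vk w (pr ψ, B) = true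
  · rw [if_pos hv] at h1
    have h2 := hc.ev c mc hN ψ hψ B u (!b) n hu h1
    rw [hk] at h2
    cases b <;> simp at h2
  · rw [if_neg hv] at h1
    exact hc.fn n h1

/-- The phases 2 and 3. -/
lemma gd_of (hc : Ctx 𝔅 E K argX wf w W) {J : List Key} {SC : List Sp} (hJ : J.length < W) :
    ∀ (R n : ℕ), n ≤ 2 * R → ∀ (Z : List ℕ) (m : Fls), (∀ z ∈ Z, z < W) → m.length ≤ W →
      GV (tstep E K argX wf w) tout W n ((none, 2), (SC, J), (Z, m, (([], []), false)), ev0) →
      Gd 𝔅 (fun _ _ _ => True) J SC R Z m := by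
  intro R
  induction R with
  | zero =>
    intro n hn Z m _ _ h
    obtain rfl : n = 0 := by omega
    simp [GV, tout] at h
  | succ R ih =>
    intro n hn Z m hZ hm h ψ B b hψ hψJ hψm
    have h0W : 0 < W := by omega
    cases n with
    | zero => simp [GV, tout] at h
    | succ n1 =>
    obtain ⟨M1, hM1, h⟩ := h
    obtain ⟨k, hk1, hk2⟩ := List.mem_iff_getElem.1 hψm
    have hg : m.getD k (([], []), false) = ((pr ψ, B), b) := by
      rw [List.getD_eq_getElem _ _ hk1, hk2]
    obtain ⟨M', hM', hM'c⟩ := ex_chl (W := W) (0, 0, 0, k, 0, false)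
      (hc.enc 0 0 k 0 h0W h0W (Or.inl (hk1.trans_le hm)) h0W 0 false (by norm_num))
    have h1 := h M' hM'
    have e1 : tstep E K argX wf w ((none, 2), (SC, J), (Z, m, (([], []), false)), ev0) M1 M' =
        ph2 wf w SC J Z m (chl M').2.2.2.1 := rfl
    rw [e1, hM'c] at h1
    simp only [ph2] at h1
    rw [hg, if_pos ⟨hk1, hψJ, wf_pr hc hψ⟩] at h1
    by_cases hv : vk w (pr ψ, B) = true
    swap
    · rw [if_neg hv] at h1
      exact absurd h1 (hc.fn n1)
    rw [if_pos hv] at h1
    cases n1 with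
    | zero => simp [GV, tout] at h1
    | succ n2 =>
    obtain ⟨M, hM, h1⟩ := h1
    have e2 : ∀ x : List Bool,
        tstep E K argX wf w ((none, 3), (SC, J), (Z, m, ((pr ψ, B), b)), ev0) M x =
          ph3 wf w SC J Z m ((pr ψ, B), b) M (chl x) := fun x => rfl
    have h2 : ∀ x : ℕ × ℕ × ℕ × ℕ × ℕ × Bool, 2 * sz x + 1 ≤ W →
        GV (tstep E K argX wf w) tout W n2 (ph3 wf w SC J Z m ((pr ψ, B), b) M x) := by
      intro x hx
      obtain ⟨X, hX, hXc⟩ := ex_chl x hx
      have := h1 X hX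
      rwa [e2, hXc] at this
    have z0 := hc.enc 0 0 0 0 h0W h0W (Or.inl h0W) h0W 0 false (by norm_num)
    unfold ph3 at h2
    cases hd : unbits An (unpair M).1 with
    | none =>
      rw [hd] at h2
      exact absurd (h2 _ z0) (hc.fn n2)
    | some d =>
    rw [hd] at h2
    obtain ⟨⟨sel, i, u⟩, c, Z', m', u0⟩ := d
    have hsz := dec_len hd
    rw [hM] at hsz
    simp only [hM] at h2
    have hv' : ¬ (vk w (pr ψ, B) = false) := by rw [hv]; simp
    simp only [if_neg hv'] at h2
    cases sel with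
    | false =>
      left
      simp only [if_true] at h2
      have h3 := h2 _ z0
      by_cases hc1 : i ∈ Z ∧ u < N (cl SC i) ∧ vsp w W (sp SC i) = true
      · rw [if_pos hc1] at h3
        exact ⟨i, hc1.1, u, hc1.2.1,
          hc.ev (cl SC i) (fl SC i) (vsp_N hc1.2.2) ψ hψ B u b n2 hc1.2.1 h3⟩
      · rw [if_neg hc1] at h3
        exact absurd h3 (hc.fn n2)
    | true =>
      right
      simp only [Bool.true_eq_false, if_false] at h2
      by_cases hc1 : clokb c = true ∧ c.2.1.2.2 = [] ∧ c.2.2 = [] ∧ subb Z' Z = true ∧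
          subb m' m = true ∧ u0 < N c ∧ N c ≤ W
      swap
      · have h3 := h2 _ z0
        rw [if_neg hc1] at h3
        exact absurd h3 (hc.fn n2)
      simp only [if_pos hc1] at h2
      obtain ⟨hcl, hn1, hn2, hsZ, hsm, hu0, hNW⟩ := hc1
      rw [subb_iff] at hsZ hsm
      have hm'W : m'.length ≤ W := by
        have := length_lt_sz m'
        simp only [sz_pair] at hsz
        omega
      have a0 := h2 (0, 0, 0, 0, 0, false)
        (hc.enc 0 0 0 0 h0W h0W (Or.inl h0W) h0W 0 false (by norm_num))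
      have a1 : ∀ (k u : ℕ) (b : Bool), k < W → u < W →
          GV (tstep E K argX wf w) tout W n2 (att wf w J c m' m k u b) := by
        intro k u b hk hu
        have := h2 (1, 0, 0, k, u, b) (hc.enc 0 0 k u h0W h0W (Or.inl hk) hu 1 b (by norm_num))
        simpa using this
      have a2 := fun z (hz : z < W) => h2 (2, 0, z, 0, 0, false)
        (hc.enc 0 z 0 0 h0W hz (Or.inl h0W) h0W 2 false (by norm_num))
      have a3 := fun (z k u : ℕ) (b : Bool) (hz : z < W) (hk : k < W) (hu : u < W) =>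
        h2 (3, 0, z, k, u, b) (hc.enc 0 z k u h0W hz (Or.inl hk) hu 3 b (by norm_num))
      have a4 := h2 (4, 0, 0, 0, 0, false)
        (hc.enc 0 0 0 0 h0W h0W (Or.inl h0W) h0W 4 false (by norm_num))
      simp only [if_true] at a0
      refine ⟨c, Z', m', trivial, clokb_iff.1 hcl, hn1, hn2, hsZ, hsm, ?_,
        att_loc hc hNW hJ.le a1, ⟨u0, hu0, hc.ev c m' hNW ψ hψ B u0 b n2 hu0 a0⟩, ?_⟩
      · intro z hz
        have hzW := hZ z (hsZ z hz)
        have b2 := a2 z hzW
        simp only [OfNat.ofNat_ne_zero, OfNat.ofNat_ne_one, if_false, if_true, if_pos hz] at b2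
        have b3 := hc.fr _ _ b2
        simp only [Bool.and_eq_true, decide_eq_true_eq, subb_iff] at b3
        have hvz : vsp w W (sp SC z) = true := by
          by_contra hvz
          have b4 := a3 z 0 0 false hzW h0W h0W
          simp [hz, hvz] at b4
          exact hc.fn _ b4
        refine ⟨b3.1.1, b3.1.2, b3.2, att_loc (n := n2) hc (vsp_N hvz) hJ.le ?_⟩
        intro k u b hk hu
        have b4 := a3 z k u b hzW hk hu
        simpa [hz, hvz] using b4
      · by_cases hs : subb Z Z' = true ∧ subb m m' = true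
        · left
          rw [subb_iff, subb_iff] at hs
          exact hs
        · right
          refine ih n2 (by omega) Z' m' (fun z hz => hZ z (hsZ z hz)) hm'W ?_
          simpa [hs] using a4

/-- The phase 1. -/
lemma cert_of (hc : Ctx 𝔅 E K argX wf w W) {φ : Form 𝔅} (hφ : NoAt φ) (hw : pr φ = w)
    {J : List Key} {SC : List Sp} {v0 : ℕ} (hJ : J.length < W) (hSC : SC.length < W)
    (h0 : 0 < SC.length) (hv0 : v0 < N (cl SC 0)) {n : ℕ}
    (h : ∀ x : ℕ × ℕ × ℕ × ℕ × ℕ × Bool, 2 * sz x + 1 ≤ W →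
      GV (tstep E K argX wf w) tout W n (ph1 wf w SC J v0 W x)) :
    IsCert (fun _ _ _ => True) J SC n φ v0 := by
  have h0W : 0 < W := by omega
  have A0 := h (0, 0, 0, 0, 0, false)
    (hc.enc 0 0 0 0 h0W h0W (Or.inl h0W) h0W 0 false (by norm_num))
  have A1 := h (1, 0, 0, 0, 0, false)
    (hc.enc 0 0 0 0 h0W h0W (Or.inl h0W) h0W 1 false (by norm_num))
  have A2 := fun k (hk : k < W) => h (2, 0, 0, k, 0, false)
    (hc.enc 0 0 k 0 h0W h0W (Or.inl hk) h0W 2 false (by norm_num))
  have A3 := fun j (hj : j < W) => h (3, j, 0, 0, 0, false)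
    (hc.enc j 0 0 0 hj h0W (Or.inl h0W) h0W 3 false (by norm_num))
  have A4 := fun j i k (hj : j < W) (hi : i < W) (hk : k ∈ w.map Prod.snd) =>
    h (4, j, i, k, 0, false) (hc.enc j i k 0 hj hi (Or.inr hk) h0W 4 false (by norm_num))
  have A5 := fun j i (hj : j < W) (hi : i < W) =>
    h (5, j, i, 0, 0, false) (hc.enc j i 0 0 hj hi (Or.inl h0W) h0W 5 false (by norm_num))
  have A6 := fun j i k u b (hj : j < W) (hi : i < W) (hk : k < W) (hu : u < W) =>
    h (6, j, i, k, u, b) (hc.enc j i k u hj hi (Or.inl hk) hu 6 b (by norm_num))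
  have A7 := fun j (hj : j < W) => h (7, j, 0, 0, 0, false)
    (hc.enc j 0 0 0 hj h0W (Or.inl h0W) h0W 7 false (by norm_num))
  simp only [ph1, OfNat.ofNat_ne_zero, OfNat.ofNat_ne_one, if_false, if_true, one_ne_zero,
    Nat.reduceEqDiff] at A0 A1 A2 A3 A4 A5 A6 A7
  -- sizes
  have hvs : ∀ j < SC.length, vsp w W (sp SC j) = true := by
    intro j hj
    by_contra hvj
    have := A5 j 0 (hj.trans hSC) h0W
    rw [if_pos hj, if_pos (by simpa using hvj)] at this
    exact hc.fn _ this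
  have hok : ∀ j < SC.length, OKc 𝔅 J SC (ab SC j) (fl SC j) := by
    intro j hj z hz
    have hzW : z < W := vsp_z (hvs j hj) z hz
    have b5 := A5 j z (hj.trans hSC) hzW
    rw [if_pos hj, if_neg (by rw [hvs j hj]; simp), if_pos hz] at b5
    have b5' := hc.fr _ _ b5
    simp only [Bool.and_eq_true, decide_eq_true_eq, subb_iff] at b5'
    refine ⟨b5'.1.1, b5'.1.2, b5'.2, att_loc (n := n) hc (vsp_N (hvs z b5'.1.1)) hJ.le ?_⟩
    intro k u b hk hu
    have b6 := A6 j z k u b (hj.trans hSC) hzW hk hu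
    rwa [if_pos hj, if_pos hz, if_pos (hvs z b5'.1.1)] at b6
  have hgd : ∀ j < SC.length, Gd 𝔅 (fun _ _ _ => True) J SC n (ab SC j) (fl SC j) := by
    intro j hj
    have b7 := A7 j (hj.trans hSC)
    rw [if_pos hj, if_pos (hvs j hj)] at b7
    exact gd_of hc hJ n n (by omega) _ _ (vsp_z (hvs j hj)) (vsp_m (hvs j hj)) b7
  have h34 : ∀ j < SC.length, j ∉ ab SC j ∧ Clok (cl SC j) := by
    intro j hj
    have b3 := A3 j (hj.trans hSC)
    rw [if_pos hj] at b3
    have b3' := hc.fr _ _ b3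
    simp only [Bool.and_eq_true, decide_eq_true_eq, clokb_iff] at b3'
    exact ⟨b3'.2, b3'.1⟩
  have h4 : ∀ j < SC.length, ∀ j' < SC.length, j ≠ j' → ∀ i ∈ w.map Prod.snd,
      (!(decide (lk (cl SC j).2.1.2.2 (N (cl SC j)) i < N (cl SC j)) &&
            decide (lk (cl SC j').2.1.2.2 (N (cl SC j')) i < N (cl SC j'))) &&
          !(decide (lk (cl SC j).2.2 (N (cl SC j)) i < N (cl SC j)) &&
            decide (lk (cl SC j').2.2 (N (cl SC j')) i < N (cl SC j')))) = true := by
    intro j hj j' hj' hne i hi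
    have b4 := A4 j j' i (hj.trans hSC) (hj'.trans hSC) hi
    rw [if_pos hj, if_pos ⟨hj', hne⟩] at b4
    have b4' := hc.fr _ _ b4
    rw [hvs j hj, hvs j' hj'] at b4'
    simpa using b4'
  have hev0 : kv (cl SC 0) (fl SC 0) φ [] v0 = true := by
    rw [if_pos (hvs 0 h0)] at A0
    rw [← hw] at A0
    exact hc.ev (cl SC 0) (fl SC 0) (vsp_N (hvs 0 h0)) φ hφ [] v0 true n hv0 (by rwa [hw] at A0 ⊢)
  refine ⟨h0, ?_, ?_, hv0, hev0, fun j hj => (h34 j hj).1, fun j hj => (h34 j hj).2, hok, hgd,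
    ?_, ?_⟩
  · refine hc.nd J φ hφ [] n ?_
    rw [hw]
    exact A1
  · intro ψ B hψ hψJ
    obtain ⟨k, hk1, hk2⟩ := List.mem_iff_getElem.1 hψJ
    have hg : J.getD k ([], []) = (pr ψ, B) := by
      rw [List.getD_eq_getElem _ _ hk1, hk2]
    have b2 := A2 k (hk1.trans hJ)
    rw [hg, if_pos ⟨hk1, wf_pr hc hψ⟩] at b2
    by_cases hv : vk w (pr ψ, B) = true
    · rw [if_pos hv] at b2
      exact hc.nd J ψ hψ B n b2
    · rw [if_neg hv] at b2
      exact absurd b2 (hc.fn n)
  · rintro j hj j' hj' hne i ⟨hi1, hi2⟩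
    obtain ⟨p, hp, hpi⟩ := lk_lt_mem _ _ _ hi1
    have hi : i ∈ w.map Prod.snd := hpi ▸ vl_mem (vsp_n (hvs j hj)) p hp
    have := h4 j hj j' hj' hne i hi
    simp [hi1, hi2] at this
  · rintro j hj j' hj' hne i ⟨hi1, hi2⟩
    obtain ⟨p, hp, hpi⟩ := lk_lt_mem _ _ _ hi1
    have hi : i ∈ w.map Prod.snd := hpi ▸ vl_mem (vsp_f (hvs j hj)) p hp
    have := h4 j hj j' hj' hne i hi
    simp [hi1, hi2] at this

end

end D3P

open D3P in
/-- A won game gives a certificate. -/
theorem d3 (h2 : D2) : D3 := by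
  intro 𝔅 E K argX wf hfs φ hφ W hW henc n hg
  obtain ⟨g1, g2, g3⟩ := h2 𝔅 E K argX wf hfs (pr φ) W hW
  have hc : Ctx 𝔅 E K argX wf (pr φ) W :=
    { fs := hfs
      fn := fun n h => by simpa using (g1 false n).1 h
      fr := fun r n h => (g1 r n).1 h
      ev := fun c mc hN ψ hψ B v b n hv h => (g2 c mc hN ψ hψ B v b n hv).1 h
      nd := fun J ψ hψ B n h => (g3 J ψ hψ B n).1 h
      enc := henc }
  cases n with
  | zero => simp [GV, tout, start] at hg
  | succ n1 =>
  obtain ⟨M, hM, hg⟩ := hg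
  have e1 : ∀ x : List Bool, tstep E K argX wf (pr φ) start M x = ph0 M := fun x => rfl
  have g4 := hg (List.replicate W false) (List.length_replicate ..)
  rw [e1] at g4
  unfold ph0 at g4
  cases hd : unbits (List Sp × List Key × ℕ) (unpair M).1 with
  | none =>
    rw [hd] at g4
    exact absurd g4 (hc.fn n1)
  | some d =>
  rw [hd] at g4
  obtain ⟨SC, J, v0⟩ := d
  have hsz := dec_len hd
  rw [hM] at hsz
  simp only [sz_pair] at hsz
  have hSC : SC.length < W := by
    have := length_lt_sz SC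
    omega
  have hJ : J.length < W := by
    have := length_lt_sz J
    omega
  by_cases h0 : 0 < SC.length ∧ v0 < N (cl SC 0)
  swap
  · simp only [if_neg h0] at g4
    exact absurd g4 (hc.fn n1)
  simp only [if_pos h0] at g4
  cases n1 with
  | zero => simp [GV, tout] at g4
  | succ n2 =>
  obtain ⟨M2, hM2, g5⟩ := g4
  refine ⟨J, SC, n2, v0, cert_of hc hφ rfl hJ hSC h0.1 h0.2 ?_⟩
  intro x hx
  obtain ⟨X, hX, hXc⟩ := ex_chl x hx
  have g6 := g5 X hX
  have e2 : tstep E K argX wf (pr φ)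
      ((none, 1), (SC, J), cf0, (ev0.1, [], [], [], [], v0, false)) M2 X =
        ph1 wf (pr φ) SC J v0 M2.length (chl X) := rfl
  rw [e2, hXc, hM2] at g6
  exact g6

end Pool.Agent.H75C.HY.TR
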